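import Pool.Agent.Helper31.BC.Stmts
import Pool.Agent.Helper31.Grid.Row

set_option autoImplicit false

/-! # CON1: sets closed under the used edges which are not on the detours of the bad blocks -/

namespace Pool.Agent.Helper31.BC

open Pool.Agent.Helper52.Grid Pool.Agent.Helper31.Grid

variable {s : List Sub} {M : ℕ} {a ch : ℕ → Bool} {S : Pt → Prop}

/-- `S` is closed under the used edges not on the detours of the bad blocks -/
structure Con1Cl (s : List Sub) (M : ℕ) (a ch : ℕ → Bool) (S : Pt → Prop) : Prop where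
  h : ∀ x y, hUse s M a ch x y = true → OKh s a ch x y → (S (x, y) ↔ S (x + 1, y))
  v : ∀ x y, vUse s M a ch x y = true → OKv s a ch x y → (S (x, y) ↔ S (x, y + 1))

theorem con1_bad_left {x y : ℕ} (hx : x < 5) : isBad s a ch x y = false := by
  unfold isBad
  rw [decide_eq_false (by omega)]
  rfl

theorem con1_bad_mod {x y : ℕ} (hx : (x - 5) % 4 ≠ 1) : isBad s a ch x y = false := by
  unfold isBad
  rw [decide_eq_false (by omega)]
  rfl

theorem con1_sg_ge {k : ℕ} (hk : s.length ≤ k) : sg s k = none := by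
  unfold sg
  rw [List.getD_eq_getElem?_getD, List.getElem?_eq_none hk]
  rfl

theorem con1_bad_right {x y : ℕ} (hx : 5 + 4 * s.length ≤ x) : isBad s a ch x y = false := by
  unfold isBad
  have h : sg s ((x - 5) / 4) = none := con1_sg_ge (by omega)
  rw [h, decide_eq_false]
  · rfl
  · rintro ⟨_, _, _, _, h5⟩
    exact absurd h5 (by simp)

theorem con1_okh_left {x y : ℕ} (hx : x < 5) : OKh s a ch x y := con1_bad_left hx

theorem con1_okv_left {x y : ℕ} (hx : x < 5) : OKv s a ch x y :=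
  ⟨con1_bad_left hx, con1_bad_left (by omega)⟩

theorem con1_okh_right {x y : ℕ} : OKh s a ch (5 + 4 * s.length + x) y :=
  con1_bad_right (by omega)

theorem con1_okv_right {x y : ℕ} : OKv s a ch (5 + 4 * s.length + x) y := by
  refine ⟨con1_bad_right (by omega), ?_⟩
  rcases Nat.eq_zero_or_pos x with h | h
  · subst h
    rcases Nat.eq_zero_or_pos s.length with h2 | h2
    · exact con1_bad_left (by omega)
    · exact con1_bad_mod (by omega)
  · exact con1_bad_right (by omega)

theorem con1_bad_cell {k i j r : ℕ} (hj : j < 4) (hr : r < 6)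
    (hok : r ≠ 0 ∨ kind (sg s k) i ≠ .dblk ∨ ch k = false ∨ bst s a i k = true) :
    isBad s a ch (5 + 4 * k + j) (4 + 6 * i + r + 1) = false := by
  by_contra hcon
  have hb : isBad s a ch (5 + 4 * k + j) (4 + 6 * i + r + 1) = true := by
    cases h : isBad s a ch (5 + 4 * k + j) (4 + 6 * i + r + 1)
    · exact absurd h hcon
    · rfl
  unfold isBad at hb
  rw [Bool.and_eq_true, Bool.and_eq_true, decide_eq_true_eq] at hb
  obtain ⟨⟨⟨_, _, h3, h4, h5⟩, h6⟩, h7⟩ := hb
  have hr0 : r = 0 := by omega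
  subst hr0
  have e1 : (5 + 4 * k + j - 5) / 4 = k := by omega
  have e2 : (4 + 6 * i + 0 + 1 - 4) / 6 = i := by omega
  rw [e1, e2] at h5
  rw [e1] at h6
  rw [e1, e2] at h7
  rcases hok with h | h | h | h
  · exact h rfl
  · apply h
    rw [h5]
    simp [kind]
  · rw [h] at h6
    exact absurd h6 (by simp)
  · rw [h] at h7
    exact absurd h7 (by simp)

theorem Con1Cl.qh (hS : Con1Cl s M a ch S) {k i j r : ℕ} (hk : k < s.length) (hi : i < 2 * M + 1)
    (hj : j < 4) (hr : r < 6)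
    (hu : useOf (hCell (kind (sg s k) i) r j)
      (hOc (kind (sg s k) i) r (bst s a i k) (ch k)) = true)
    (hok : r ≠ 0 ∨ kind (sg s k) i ≠ .dblk ∨ ch k = false ∨ bst s a i k = true) :
    Q S k j i r ↔ Q S k (j + 1) i r :=
  hS.h _ _ ((hUse_cell hk hi hj hr).trans hu) (con1_bad_cell hj hr hok)

theorem Con1Cl.qv (hS : Con1Cl s M a ch S) {k i j r : ℕ} (hk : k < s.length) (hi : i < 2 * M + 1)
    (hj : j < 4) (hr : r < 6)
    (hu : useOf (vCell (kind (sg s k) i) r j)
      (vOc (kind (sg s k) i) r (bst s a i k) (ch k)) = true)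
    (hok : r ≠ 0 ∨ kind (sg s k) i ≠ .dblk ∨ ch k = false ∨ bst s a i k = true) :
    Q S k j i r ↔ Q S k j i (r + 1) := by
  refine hS.v _ _ ((vUse_cell hk hi hj hr).trans hu) ⟨con1_bad_cell hj hr hok, ?_⟩
  rcases Nat.eq_zero_or_pos j with h | h
  · subst h
    rcases Nat.eq_zero_or_pos k with h2 | h2
    · exact con1_bad_left (by omega)
    · exact con1_bad_mod (by omega)
  · have e : 5 + 4 * k + j - 1 = 5 + 4 * k + (j - 1) := by omega
    rw [e]
    exact con1_bad_cell (by omega) hr hok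

/-- edges of a fixed cell -/
theorem Con1Cl.qh' (hS : Con1Cl s M a ch S) {k i : ℕ} {kd : Kind} {b c : Bool} (hk : k < s.length)
    (hi : i < 2 * M + 1) (hkd : kind (sg s k) i = kd) (hb : bst s a i k = b) (hc : ch k = c)
    (j r : ℕ) (hj : j < 4) (hr : r < 6) (hu : useOf (hCell kd r j) (hOc kd r b c) = true)
    (hok : r ≠ 0 ∨ kd ≠ .dblk ∨ c = false ∨ b = true := by
      first
        | exact Or.inl (by omega)
        | exact Or.inr (Or.inl (by decide))
        | exact Or.inr (Or.inr (Or.inl rfl))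
        | exact Or.inr (Or.inr (Or.inr rfl))) :
    Q S k j i r ↔ Q S k (j + 1) i r := by
  subst hkd hb hc
  exact hS.qh hk hi hj hr hu hok

theorem Con1Cl.qv' (hS : Con1Cl s M a ch S) {k i : ℕ} {kd : Kind} {b c : Bool} (hk : k < s.length)
    (hi : i < 2 * M + 1) (hkd : kind (sg s k) i = kd) (hb : bst s a i k = b) (hc : ch k = c)
    (j r : ℕ) (hj : j < 4) (hr : r < 6) (hu : useOf (vCell kd r j) (vOc kd r b c) = true)
    (hok : r ≠ 0 ∨ kd ≠ .dblk ∨ c = false ∨ b = true := by
      first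
        | exact Or.inl (by omega)
        | exact Or.inr (Or.inl (by decide))
        | exact Or.inr (Or.inr (Or.inl rfl))
        | exact Or.inr (Or.inr (Or.inr rfl))) :
    Q S k j i r ↔ Q S k j i (r + 1) := by
  subst hkd hb hc
  exact hS.qv hk hi hj hr hu hok

/-- the strands `r = 1, 3, 5` of a cell without a block -/
theorem con1_strand_plain (hS : Con1Cl s M a ch S) {k i : ℕ} (hk : k < s.length) (hi : i < 2 * M + 1)
    (hkd : kind (sg s k) i = .plain) (r : ℕ) (hr : r = 1 ∨ r = 3 ∨ r = 5) :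
    (Q S k 1 i r ↔ Q S k 0 i r) ∧ (Q S k 2 i r ↔ Q S k 0 i r) ∧ (Q S k 3 i r ↔ Q S k 0 i r) ∧
      (Q S k 4 i r ↔ Q S k 0 i r) := by
  have e : ∀ j, j < 4 → (Q S k j i r ↔ Q S k (j + 1) i r) := by
    intro j hj
    refine hS.qh' hk hi hkd rfl rfl j r hj (by omega) ?_
    rcases hr with rfl | rfl | rfl <;> rfl
  have e0 := e 0 (by omega)
  have e1 := e 1 (by omega)
  have e2 := e 2 (by omega)
  have e3 := e 3 (by omega)
  exact ⟨e0.symm, (e0.trans e1).symm, ((e0.trans e1).trans e2).symm,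
    (((e0.trans e1).trans e2).trans e3).symm⟩

theorem con1_strand_cross (hS : Con1Cl s M a ch S) {k i : ℕ} (hk : k < s.length) (hi : i < 2 * M + 1)
    (hrow : ∀ k i d, sg s k = some (i, d) → i < 2 * M + 1)
    (hkd : kind (sg s k) i = .cross) (r : ℕ) (hr : r = 1 ∨ r = 3 ∨ r = 5) :
    (Q S k 1 i r ↔ Q S k 0 i r) ∧ (Q S k 2 i r ↔ Q S k 0 i r) ∧ (Q S k 3 i r ↔ Q S k 0 i r) ∧
      (Q S k 4 i r ↔ Q S k 0 i r) := by
  have e : ∀ j, j < 4 → j ≠ 1 → (Q S k j i r ↔ Q S k (j + 1) i r) := by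
    intro j hj h1
    refine hS.qh' hk hi hkd rfl rfl j r hj (by omega) ?_
    rcases hr with rfl | rfl | rfl <;>
    · interval_cases j <;> first | rfl | exact absurd rfl h1
  have e0 := e 0 (by omega) (by omega)
  have e2 := e 2 (by omega) (by omega)
  have e3 := e 3 (by omega) (by omega)
  have e1 : Q S k 1 i r ↔ Q S k 2 i r := by
    cases hc : ch k
    · -- down
      have d1 : Q S k 1 i r ↔ Q S k 1 i (r + 1) := by
        refine hS.qv' hk hi hkd rfl hc 1 r (by omega) (by omega) ?_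
        rcases hr with rfl | rfl | rfl <;> rfl
      have d2 : Q S k 2 i r ↔ Q S k 2 i (r + 1) := by
        refine hS.qv' hk hi hkd rfl hc 2 r (by omega) (by omega) ?_
        rcases hr with rfl | rfl | rfl <;> rfl
      have d3 : Q S k 1 i (r + 1) ↔ Q S k 2 i (r + 1) := by
        rcases hr with rfl | rfl | rfl
        · exact hS.qh' hk hi hkd rfl hc 1 2 (by omega) (by omega) rfl
        · exact hS.qh' hk hi hkd rfl hc 1 4 (by omega) (by omega) rfl
        · rw [Q6, Q6]
          obtain ⟨v, hv, hiv⟩ := kind_cross hkd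
          have hv' := hrow k v true hv
          rcases kind_docked (v := v) (i := i + 1) (by omega) with h | h
          · rw [← hv] at h
            exact hS.qh' hk (by omega) h rfl hc 1 0 (by omega) (by omega) rfl
          · rw [← hv] at h
            exact hS.qh' hk (by omega) h rfl hc 1 0 (by omega) (by omega) rfl
      exact (d1.trans d3).trans d2.symm
    · -- up
      obtain ⟨q, rfl⟩ : ∃ q, r = q + 1 := ⟨r - 1, by omega⟩
      have hq : q = 0 ∨ q = 2 ∨ q = 4 := by omega
      have d1 : Q S k 1 i q ↔ Q S k 1 i (q + 1) := by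
        refine hS.qv' hk hi hkd rfl hc 1 q (by omega) (by omega) ?_
        rcases hq with rfl | rfl | rfl <;> rfl
      have d2 : Q S k 2 i q ↔ Q S k 2 i (q + 1) := by
        refine hS.qv' hk hi hkd rfl hc 2 q (by omega) (by omega) ?_
        rcases hq with rfl | rfl | rfl <;> rfl
      have d3 : Q S k 1 i q ↔ Q S k 2 i q := by
        rcases hq with rfl | rfl | rfl
        · exact hS.qh' hk hi hkd rfl hc 1 0 (by omega) (by omega) rfl
        · exact hS.qh' hk hi hkd rfl hc 1 2 (by omega) (by omega) rfl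
        · exact hS.qh' hk hi hkd rfl hc 1 4 (by omega) (by omega) rfl
      exact (d1.symm.trans d3).trans d2
  exact ⟨e0.symm, (e0.trans e1).symm, ((e0.trans e1).trans e2).symm,
    (((e0.trans e1).trans e2).trans e3).symm⟩

theorem con1_block_true (hS : Con1Cl s M a ch S) {k i : ℕ} (hk : k < s.length) (hi : i < 2 * M + 1)
    (hkd : kind (sg s k) i = .blk ∨ kind (sg s k) i = .dblk) (hb : bst s a i k = true) :
    BT S k i := by
  have H : ∀ j r, j < 4 → r < 6 → (∀ kd c, (kd = .blk ∨ kd = .dblk) →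
      useOf (hCell kd r j) (hOc kd r true c) = true) → (Q S k j i r ↔ Q S k (j + 1) i r) := by
    intro j r hj hr hu
    exact hS.qh' hk hi rfl hb rfl j r hj hr (hu _ _ hkd)
  have V : ∀ j r, j < 4 → r < 6 → (∀ kd c, (kd = .blk ∨ kd = .dblk) →
      useOf (vCell kd r j) (vOc kd r true c) = true) → (Q S k j i r ↔ Q S k j i (r + 1)) := by
    intro j r hj hr hu
    exact hS.qv' hk hi rfl hb rfl j r hj hr (hu _ _ hkd)
  have F : ∀ {P : Kind → Bool → Prop}, (∀ c, P .blk c) → (∀ c, P .dblk c) →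
      (∀ kd c, (kd = .blk ∨ kd = .dblk) → P kd c) := by
    intro P h1 h2 kd c h
    rcases h with rfl | rfl
    · exact h1 c
    · exact h2 c
  have h01 := H 0 1 (by omega) (by omega) (F (fun _ => rfl) (fun _ => rfl))
  have h21 := H 2 1 (by omega) (by omega) (F (fun _ => rfl) (fun _ => rfl))
  have h31 := H 3 1 (by omega) (by omega) (F (fun _ => rfl) (fun _ => rfl))
  have h02 := H 0 2 (by omega) (by omega) (F (fun _ => rfl) (fun _ => rfl))
  have h22 := H 2 2 (by omega) (by omega) (F (fun _ => rfl) (fun _ => rfl))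
  have h33 := H 3 3 (by omega) (by omega) (F (fun _ => rfl) (fun _ => rfl))
  have h05 := H 0 5 (by omega) (by omega) (F (fun _ => rfl) (fun _ => rfl))
  have h25 := H 2 5 (by omega) (by omega) (F (fun _ => rfl) (fun _ => rfl))
  have h35 := H 3 5 (by omega) (by omega) (F (fun _ => rfl) (fun _ => rfl))
  have v02 := V 0 2 (by omega) (by omega) (F (fun _ => rfl) (fun _ => rfl))
  have v32 := V 3 2 (by omega) (by omega) (F (fun _ => rfl) (fun _ => rfl))
  have v13 := V 1 3 (by omega) (by omega) (F (fun _ => rfl) (fun _ => rfl))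
  have v23 := V 2 3 (by omega) (by omega) (F (fun _ => rfl) (fun _ => rfl))
  have v14 := V 1 4 (by omega) (by omega) (F (fun _ => rfl) (fun _ => rfl))
  have v24 := V 2 4 (by omega) (by omega) (F (fun _ => rfl) (fun _ => rfl))
  have v12 := V 1 2 (by omega) (by omega) (F (fun _ => rfl) (fun _ => rfl))
  have v22 := V 2 2 (by omega) (by omega) (F (fun _ => rfl) (fun _ => rfl))
  have h11 : Q S k 1 i 1 ↔ Q S k 2 i 1 := by
    rcases hkd with hkd | hkd
    · exact hS.qh' hk hi hkd hb rfl 1 1 (by omega) (by omega) rfl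
    · cases hc : ch k
      · exact hS.qh' hk hi hkd hb hc 1 1 (by omega) (by omega) rfl
      · have d1 := hS.qv' hk hi hkd hb hc 1 0 (by omega) (by omega) rfl
        have d2 := hS.qv' hk hi hkd hb hc 2 0 (by omega) (by omega) rfl
        have d3 := hS.qh' hk hi hkd hb hc 1 0 (by omega) (by omega) rfl
        exact (d1.symm.trans d3).trans d2
  simp only [Nat.reduceAdd] at *
  have c1 := h01.symm
  have c2 := h11.symm.trans c1
  have c3 := h21.symm.trans c2
  have c4 := h31.symm.trans c3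
  have e1 := v02
  have e2 := h02.symm.trans e1
  have e3 := v12.symm.trans e2
  have e4 := v13.symm.trans e3
  have e5 := v14.symm.trans e4
  have e6 := h05.trans e5
  have f1 := h33
  have f2 := v32.trans f1
  have f3 := h22.trans f2
  have f4 := v22.symm.trans f3
  have f5 := v23.symm.trans f4
  have f6 := v24.symm.trans f5
  have f7 := h25.symm.trans f6
  have f8 := h35.symm.trans f7
  exact ⟨c1, c2, c3, c4, e1, e2, e3, e4, e5, e6, f1, f2, f3, f4, f5, f6, f7, f8⟩

theorem con1_block_false (hS : Con1Cl s M a ch S) {k i : ℕ} (hk : k < s.length) (hi : i < 2 * M + 1)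
    (hkd : kind (sg s k) i = .blk ∨ kind (sg s k) i = .dblk) (hb : bst s a i k = false) :
    BF S k i := by
  have H : ∀ j r, j < 4 → r < 6 → r ≠ 0 → (∀ kd c, (kd = .blk ∨ kd = .dblk) →
      useOf (hCell kd r j) (hOc kd r false c) = true) → (Q S k j i r ↔ Q S k (j + 1) i r) := by
    intro j r hj hr hr0 hu
    exact hS.qh' hk hi rfl hb rfl j r hj hr (hu _ _ hkd)
  have V : ∀ j r, j < 4 → r < 6 → r ≠ 0 → (∀ kd c, (kd = .blk ∨ kd = .dblk) →
      useOf (vCell kd r j) (vOc kd r false c) = true) → (Q S k j i r ↔ Q S k j i (r + 1)) := by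
    intro j r hj hr hr0 hu
    exact hS.qv' hk hi rfl hb rfl j r hj hr (hu _ _ hkd)
  have F : ∀ {P : Kind → Bool → Prop}, (∀ c, P .blk c) → (∀ c, P .dblk c) →
      (∀ kd c, (kd = .blk ∨ kd = .dblk) → P kd c) := by
    intro P h1 h2 kd c h
    rcases h with rfl | rfl
    · exact h1 c
    · exact h2 c
  have h01 := H 0 1 (by omega) (by omega) (by omega) (F (fun _ => rfl) (fun _ => rfl))
  have h21 := H 2 1 (by omega) (by omega) (by omega) (F (fun _ => rfl) (fun _ => rfl))
  have h31 := H 3 1 (by omega) (by omega) (by omega) (F (fun _ => rfl) (fun _ => rfl))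
  have h02 := H 0 2 (by omega) (by omega) (by omega) (F (fun _ => rfl) (fun _ => rfl))
  have h22 := H 2 2 (by omega) (by omega) (by omega) (F (fun _ => rfl) (fun _ => rfl))
  have h33 := H 3 3 (by omega) (by omega) (by omega) (F (fun _ => rfl) (fun _ => rfl))
  have h05 := H 0 5 (by omega) (by omega) (by omega) (F (fun _ => rfl) (fun _ => rfl))
  have h25 := H 2 5 (by omega) (by omega) (by omega) (F (fun _ => rfl) (fun _ => rfl))
  have h35 := H 3 5 (by omega) (by omega) (by omega) (F (fun _ => rfl) (fun _ => rfl))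
  have v02 := V 0 2 (by omega) (by omega) (by omega) (F (fun _ => rfl) (fun _ => rfl))
  have v32 := V 3 2 (by omega) (by omega) (by omega) (F (fun _ => rfl) (fun _ => rfl))
  have v13 := V 1 3 (by omega) (by omega) (by omega) (F (fun _ => rfl) (fun _ => rfl))
  have v23 := V 2 3 (by omega) (by omega) (by omega) (F (fun _ => rfl) (fun _ => rfl))
  have v14 := V 1 4 (by omega) (by omega) (by omega) (F (fun _ => rfl) (fun _ => rfl))
  have v24 := V 2 4 (by omega) (by omega) (by omega) (F (fun _ => rfl) (fun _ => rfl))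
  have v11 := V 1 1 (by omega) (by omega) (by omega) (F (fun _ => rfl) (fun _ => rfl))
  have v21 := V 2 1 (by omega) (by omega) (by omega) (F (fun _ => rfl) (fun _ => rfl))
  have h13 := H 1 3 (by omega) (by omega) (by omega) (F (fun _ => rfl) (fun _ => rfl))
  simp only [Nat.reduceAdd] at *
  have c1 := h01.symm
  have c2 := v11.symm.trans c1
  have c3 := h02.trans c2
  have c4 := v02.symm.trans c3
  have e1 := h31
  have e2 := h21.trans e1
  have e3 := v21.symm.trans e2
  have e4 := h22.symm.trans e3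
  have e5 := v32.symm.trans e4
  have e6 := h33.symm.trans e5
  have f1 := h05.symm
  have f2 := v14.trans f1
  have f3 := v13.trans f2
  have f4 := h13.symm.trans f3
  have f5 := v23.symm.trans f4
  have f6 := v24.symm.trans f5
  have f7 := h25.symm.trans f6
  have f8 := h35.symm.trans f7
  exact ⟨c1, c2, c3, c4, e1, e2, e3, e4, e5, e6, f1, f2, f3, f4, f5, f6, f7, f8⟩

theorem con1_left_end (hS : Con1Cl s M a ch S) {i : ℕ} (hi : i < 2 * M + 1) : LE s a S i := by
  have H : ∀ x r, x < 5 → r < 6 → useOf (hL M i r x) (bst s a i 0) = true →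
      (S (x, 4 + 6 * i + r) ↔ S (x + 1, 4 + 6 * i + r)) := fun x r hx hr hu =>
    hS.h _ _ ((hUse_left hx hi hr).trans hu) (con1_okh_left hx)
  have V : ∀ x r, x < 5 → r < 6 → useOf (vL M i r x) (!bst s a i 0) = true →
      (S (x, 4 + 6 * i + r) ↔ S (x, 4 + 6 * i + r + 1)) := fun x r hx hr hu =>
    hS.v _ _ ((vUse_left hx hi hr).trans hu) (con1_okv_left hx)
  have h31 := H 3 1 (by omega) (by omega) rfl
  have h41 : S (4, 4 + 6 * i + 1) ↔ Q S 0 0 i 1 := H 4 1 (by omega) (by omega) rfl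
  have h43 : S (4, 4 + 6 * i + 3) ↔ Q S 0 0 i 3 := H 4 3 (by omega) (by omega) rfl
  have h45 : S (4, 4 + 6 * i + 5) ↔ Q S 0 0 i 5 := H 4 5 (by omega) (by omega) rfl
  have h24 := H 2 4 (by omega) (by omega) rfl
  have v31 := V 3 1 (by omega) (by omega) rfl
  have v32 := V 3 2 (by omega) (by omega) rfl
  have v44 := V 4 4 (by omega) (by omega) rfl
  have q3 : S (3, 4 + 6 * i + 3) ↔ Q S 0 0 i 1 := (v32.symm.trans v31.symm).trans (h31.trans h41)
  have q4 : S (4, 4 + 6 * i + 4) ↔ Q S 0 0 i 5 := v44.trans h45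
  refine ⟨h41, h31.trans h41, v31.symm.trans (h31.trans h41), q3, h43, h45, q4, h24, ?_, ?_⟩
  · intro hb
    have g1 := H 3 3 (by omega) (by omega) (by rw [hb]; rfl)
    have g2 := H 3 4 (by omega) (by omega) (by rw [hb]; rfl)
    exact ⟨(q3.symm.trans g1).trans h43, g2.trans q4⟩
  · intro hb
    have g1 := V 3 3 (by omega) (by omega) (by rw [hb]; rfl)
    have g2 := V 4 3 (by omega) (by omega) (by rw [hb]; rfl)
    exact ⟨(h43.symm.trans g2).trans q4, g1.symm.trans q3⟩

theorem con1_right_end (hS : Con1Cl s M a ch S) {i : ℕ} (hi : i < 2 * M + 1) : RE s a S i := by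
  have H : ∀ x r, r < 6 → useOf (hR r x) (!bst s a i s.length) = true →
      (S (5 + 4 * s.length + x, 4 + 6 * i + r) ↔ S (5 + 4 * s.length + x + 1, 4 + 6 * i + r)) :=
    fun x r hr hu => hS.h _ _ ((hUse_right hi hr).trans hu) con1_okh_right
  have V : ∀ x r, r < 6 → useOf (vR i r x) (bst s a i s.length) = true →
      (S (5 + 4 * s.length + x, 4 + 6 * i + r) ↔ S (5 + 4 * s.length + x, 4 + 6 * i + r + 1)) :=
    fun x r hr hu => hS.v _ _ ((vUse_right hi hr).trans hu) con1_okv_right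
  have h01 : Q S s.length 0 i 1 ↔ S (5 + 4 * s.length + 1, 4 + 6 * i + 1) :=
    H 0 1 (by omega) rfl
  have v04 : Q S s.length 0 i 4 ↔ Q S s.length 0 i 5 := V 0 4 (by omega) rfl
  have v11 : S (5 + 4 * s.length + 1, 4 + 6 * i + 1) ↔ S (5 + 4 * s.length + 1, 4 + 6 * i + 2) :=
    V 1 1 (by omega) rfl
  have v12 : S (5 + 4 * s.length + 1, 4 + 6 * i + 2) ↔ S (5 + 4 * s.length + 1, 4 + 6 * i + 3) :=
    V 1 2 (by omega) rfl
  have h14 : S (5 + 4 * s.length + 1, 4 + 6 * i + 4) ↔ S (5 + 4 * s.length + 2, 4 + 6 * i + 4) :=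
    H 1 4 (by omega) rfl
  have q3 := (v12.symm.trans v11.symm).trans h01.symm
  refine ⟨h01.symm, v11.symm.trans h01.symm, q3, v04, h14.symm, ?_, ?_⟩
  · intro hb
    have g1 : Q S s.length 0 i 3 ↔ Q S s.length 0 i 4 := V 0 3 (by omega) (by rw [hb]; rfl)
    have g2 : S (5 + 4 * s.length + 1, 4 + 6 * i + 3) ↔ S (5 + 4 * s.length + 1, 4 + 6 * i + 4) :=
      V 1 3 (by omega) (by rw [hb]; rfl)
    exact ⟨g1.trans v04, g2.symm.trans q3⟩
  · intro hb
    have g1 : Q S s.length 0 i 3 ↔ S (5 + 4 * s.length + 1, 4 + 6 * i + 3) :=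
      H 0 3 (by omega) (by rw [hb]; rfl)
    have g2 : Q S s.length 0 i 4 ↔ S (5 + 4 * s.length + 1, 4 + 6 * i + 4) :=
      H 0 4 (by omega) (by rw [hb]; rfl)
    exact ⟨(g1.trans q3).symm, g2.symm.trans v04⟩

/-- the transition at a cell -/
theorem con1_trans_cell (hS : Con1Cl s M a ch S) (hrow : ∀ k i d, sg s k = some (i, d) → i < 2 * M + 1)
    {k i : ℕ} (hk : k < s.length) (hi : i < 2 * M + 1) :
    (bst s a i (k + 1) = bst s a i k ∧ (Q S k 0 i 1 ↔ Q S (k + 1) 0 i 1) ∧
      (Q S k 0 i 3 ↔ Q S (k + 1) 0 i 3) ∧ (Q S k 0 i 5 ↔ Q S (k + 1) 0 i 5)) ∨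
    (bst s a i k = true ∧ bst s a i (k + 1) = false ∧ (Q S k 0 i 1 ↔ Q S (k + 1) 0 i 1) ∧
      (Q S k 0 i 3 ↔ Q S k 0 i 5) ∧ (Q S (k + 1) 0 i 3 ↔ Q S (k + 1) 0 i 5)) ∨
    (bst s a i k = false ∧ bst s a i (k + 1) = true ∧ (Q S k 0 i 5 ↔ Q S (k + 1) 0 i 5) ∧
      (Q S k 0 i 1 ↔ Q S k 0 i 3) ∧ (Q S (k + 1) 0 i 1 ↔ Q S (k + 1) 0 i 3)) := by
  have nb : (kind (sg s k) i = .plain ∨ kind (sg s k) i = .cross) →
      ∀ d, sg s k ≠ some (i, d) := by
    intro h d hd
    rw [hd] at h
    cases d <;> simp [kind] at h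
  have bk : ∀ d, sg s k = some (i, d) → kind (sg s k) i = .blk ∨ kind (sg s k) i = .dblk := by
    intro d hd
    rw [hd]
    cases d <;> simp [kind]
  have blockcase : (kind (sg s k) i = .blk ∨ kind (sg s k) i = .dblk) →
      (∃ d, sg s k = some (i, d)) →
      (bst s a i k = true ∧ bst s a i (k + 1) = false ∧ (Q S k 0 i 1 ↔ Q S (k + 1) 0 i 1) ∧
      (Q S k 0 i 3 ↔ Q S k 0 i 5) ∧ (Q S (k + 1) 0 i 3 ↔ Q S (k + 1) 0 i 5)) ∨
    (bst s a i k = false ∧ bst s a i (k + 1) = true ∧ (Q S k 0 i 5 ↔ Q S (k + 1) 0 i 5) ∧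
      (Q S k 0 i 1 ↔ Q S k 0 i 3) ∧ (Q S (k + 1) 0 i 1 ↔ Q S (k + 1) 0 i 3)) := by
    rintro hkd ⟨d, hd⟩
    have hb' := bst_succ_block (a := a) hk hd
    cases hb : bst s a i k
    · right
      have B := con1_block_false hS hk hi hkd hb
      refine ⟨rfl, by rw [hb', hb]; rfl, ?_, B.a4.symm, ?_⟩
      · rw [← Q4]; exact B.t8.symm
      · rw [← Q4, ← Q4]; exact B.b6.symm
    · left
      have B := con1_block_true hS hk hi hkd hb
      refine ⟨rfl, by rw [hb', hb]; rfl, ?_, B.b6.symm, ?_⟩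
      · rw [← Q4]; exact B.a4.symm
      · rw [← Q4, ← Q4]; exact B.t8.symm
  cases hkd : kind (sg s k) i
  · left
    refine ⟨bst_succ_other hk (nb (Or.inl hkd)), ?_, ?_, ?_⟩
    · rw [← Q4]; exact (con1_strand_plain hS hk hi hkd 1 (by omega)).2.2.2.symm
    · rw [← Q4]; exact (con1_strand_plain hS hk hi hkd 3 (by omega)).2.2.2.symm
    · rw [← Q4]; exact (con1_strand_plain hS hk hi hkd 5 (by omega)).2.2.2.symm
  · left
    refine ⟨bst_succ_other hk (nb (Or.inr hkd)), ?_, ?_, ?_⟩
    · rw [← Q4]; exact (con1_strand_cross hS hk hi hrow hkd 1 (by omega)).2.2.2.symm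
    · rw [← Q4]; exact (con1_strand_cross hS hk hi hrow hkd 3 (by omega)).2.2.2.symm
    · rw [← Q4]; exact (con1_strand_cross hS hk hi hrow hkd 5 (by omega)).2.2.2.symm
  · right
    exact blockcase (Or.inl hkd) ⟨_, kind_blk hkd⟩
  · right
    exact blockcase (Or.inr hkd) ⟨_, kind_dblk hkd⟩

theorem con1_left_info (hS : Con1Cl s M a ch S) (hrow : ∀ k i d, sg s k = some (i, d) → i < 2 * M + 1)
    {i : ℕ} (hi : i < 2 * M + 1) : ∀ k, k ≤ s.length →
    (bst s a i k = true → (Q S k 0 i 1 ↔ Q S k 0 i 3)) ∧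
      (bst s a i k = false → (Q S k 0 i 3 ↔ Q S k 0 i 5)) := by
  intro k
  induction k with
  | zero =>
    intro _
    exact ⟨fun h => ((con1_left_end hS hi).tt h).1, fun h => ((con1_left_end hS hi).ff h).1⟩
  | succ k ih =>
    intro hk
    obtain ⟨i1, i2⟩ := ih (by omega)
    rcases con1_trans_cell hS hrow (show k < s.length by omega) hi with h | h | h
    · obtain ⟨h0, h1, h2, h3⟩ := h
      rw [h0, ← h1, ← h2, ← h3]
      exact ⟨i1, i2⟩
    · obtain ⟨h0, h1, h2, h3, h4⟩ := h
      rw [h1]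
      exact ⟨fun h => absurd h (by simp), fun _ => h4⟩
    · obtain ⟨h0, h1, h2, h3, h4⟩ := h
      rw [h1]
      exact ⟨fun _ => h4, fun h => absurd h (by simp)⟩

theorem con1_right_info (hS : Con1Cl s M a ch S) (hrow : ∀ k i d, sg s k = some (i, d) → i < 2 * M + 1)
    {i : ℕ} (hi : i < 2 * M + 1) : ∀ n k, k + n = s.length →
    (bst s a i k = true → (Q S k 0 i 3 ↔ Q S k 0 i 5)) ∧
      (bst s a i k = false → (Q S k 0 i 1 ↔ Q S k 0 i 3)) := by
  intro n
  induction n with
  | zero =>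
    intro k hk
    rw [show k = s.length by omega]
    exact ⟨fun h => ((con1_right_end hS hi).tt h).1, fun h => ((con1_right_end hS hi).ff h).1⟩
  | succ n ih =>
    intro k hk
    obtain ⟨i1, i2⟩ := ih (k + 1) (by omega)
    rcases con1_trans_cell hS hrow (show k < s.length by omega) hi with h | h | h
    · obtain ⟨h0, h1, h2, h3⟩ := h
      rw [← h0, h1, h2, h3]
      exact ⟨i1, i2⟩
    · obtain ⟨h0, h1, h2, h3, h4⟩ := h
      rw [h0]
      exact ⟨fun _ => h3, fun h => absurd h (by simp)⟩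
    · obtain ⟨h0, h1, h2, h3, h4⟩ := h
      rw [h0]
      exact ⟨fun h => absurd h (by simp), fun _ => h3⟩

/-- at all boundaries the three strands agree -/
theorem con1_bdry (hS : Con1Cl s M a ch S) (hrow : ∀ k i d, sg s k = some (i, d) → i < 2 * M + 1)
    {i k : ℕ} (hi : i < 2 * M + 1) (hk : k ≤ s.length) :
    (Q S k 0 i 3 ↔ Q S k 0 i 1) ∧ (Q S k 0 i 5 ↔ Q S k 0 i 1) := by
  obtain ⟨l1, l2⟩ := con1_left_info hS hrow hi k hk
  obtain ⟨r1, r2⟩ := con1_right_info hS hrow hi (s.length - k) k (by omega)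
  cases hb : bst s a i k
  · exact ⟨(r2 hb).symm, ((r2 hb).trans (l2 hb)).symm⟩
  · exact ⟨(l1 hb).symm, ((l1 hb).trans (r1 hb)).symm⟩

theorem con1_row_const (hS : Con1Cl s M a ch S) (hrow : ∀ k i d, sg s k = some (i, d) → i < 2 * M + 1)
    {i : ℕ} (hi : i < 2 * M + 1) : ∀ k, k ≤ s.length → (Q S k 0 i 1 ↔ Q S 0 0 i 1) := by
  intro k
  induction k with
  | zero => intro _; exact Iff.rfl
  | succ k ih =>
    intro hk
    have h0 := ih (by omega)
    obtain ⟨a1, a2⟩ := con1_bdry hS hrow hi (show k ≤ s.length by omega)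
    obtain ⟨b1, b2⟩ := con1_bdry hS hrow hi hk
    rcases con1_trans_cell hS hrow (show k < s.length by omega) hi with h | h | h
    · exact h.2.1.symm.trans h0
    · exact h.2.2.1.symm.trans h0
    · exact ((b2.symm.trans h.2.2.1.symm).trans a2).trans h0

/-- everything at boundaries is equivalent to the first strand at the left -/
theorem con1_row_all (hS : Con1Cl s M a ch S) (hrow : ∀ k i d, sg s k = some (i, d) → i < 2 * M + 1)
    {i k : ℕ} (hi : i < 2 * M + 1) (hk : k ≤ s.length) :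
    (Q S k 0 i 1 ↔ Q S 0 0 i 1) ∧ (Q S k 0 i 3 ↔ Q S 0 0 i 1) ∧ (Q S k 0 i 5 ↔ Q S 0 0 i 1) := by
  obtain ⟨b1, b2⟩ := con1_bdry hS hrow hi hk
  have h := con1_row_const hS hrow hi k hk
  exact ⟨h, b1.trans h, b2.trans h⟩

theorem con1_left_w (hS : Con1Cl s M a ch S) (hrow : ∀ k i d, sg s k = some (i, d) → i < 2 * M + 1)
    {i : ℕ} (hi : i < 2 * M + 1) : S (3, 4 + 6 * i + 4) ↔ Q S 0 0 i 1 := by
  have L := con1_left_end hS hi
  obtain ⟨b1, b2⟩ := con1_bdry hS hrow hi (Nat.zero_le _)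
  cases hb : bst s a i 0
  · exact (L.ff hb).2
  · exact (L.tt hb).2.trans b2

theorem con1_right_w (hS : Con1Cl s M a ch S) (hrow : ∀ k i d, sg s k = some (i, d) → i < 2 * M + 1)
    {i : ℕ} (hi : i < 2 * M + 1) :
    S (5 + 4 * s.length + 1, 4 + 6 * i + 4) ↔ Q S 0 0 i 1 := by
  have L := con1_right_end hS hi
  obtain ⟨b0, b1, b2⟩ := con1_row_all hS hrow hi (le_refl s.length)
  cases hb : bst s a i s.length
  · exact (L.ff hb).2.trans b2
  · exact (L.tt hb).2.trans b0

/-- neighbouring rows -/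
theorem con1_row_next (hS : Con1Cl s M a ch S) (hrow : ∀ k i d, sg s k = some (i, d) → i < 2 * M + 1)
    {i : ℕ} (hi : i + 1 < 2 * M + 1) :
    (Q S 0 0 i 1 ↔ Q S 0 0 (i + 1) 1) ∧
    (i % 2 = 0 → ∀ r, 4 ≤ r → r ≤ 10 → (S (2, 4 + 6 * i + r) ↔ Q S 0 0 i 1)) ∧
    (i % 2 = 1 → ∀ r, 4 ≤ r → r ≤ 10 →
      (S (5 + 4 * s.length + 2, 4 + 6 * i + r) ↔ Q S 0 0 i 1)) := by
  have hi' : i < 2 * M + 1 := by omega
  have L := con1_left_end hS hi'
  have L' := con1_left_end hS hi
  have R := con1_right_end hS hi'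
  have R' := con1_right_end hS hi
  rcases Nat.mod_two_eq_zero_or_one i with hp | hp
  · have V : ∀ r, 4 ≤ r → r < 10 → (S (2, 4 + 6 * i + r) ↔ S (2, 4 + 6 * i + r + 1)) := by
      intro r h4 h10
      rcases Nat.lt_or_ge r 6 with h6 | h6
      · refine hS.v _ _ ((vUse_left (by omega) hi' h6).trans ?_) (con1_okv_left (by omega))
        have : vL M i r 2 = 0 := by
          simp only [vL]
          rw [if_pos hp, if_pos ⟨by omega, h4⟩]
        rw [this]; rfl
      · have e : 4 + 6 * i + r = 4 + 6 * (i + 1) + (r - 6) := by omega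
        rw [e]
        refine hS.v _ _ ((vUse_left (by omega) hi (by omega)).trans ?_) (con1_okv_left (by omega))
        have : vL M (i + 1) (r - 6) 2 = 0 := by
          simp only [vL]
          rw [if_neg (by omega), if_pos (by omega)]
        rw [this]; rfl
    have A : ∀ r, 4 ≤ r → r ≤ 10 → (S (2, 4 + 6 * i + r) ↔ Q S 0 0 i 1) := by
      intro r h4
      induction r, h4 using Nat.le_induction with
      | base =>
        intro _
        exact L.p8.trans (con1_left_w hS hrow hi')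
      | succ r h4 ih =>
        intro h10
        exact (V r h4 (by omega)).symm.trans (ih (by omega))
    refine ⟨?_, fun _ => A, fun h => absurd h (by omega)⟩
    have h10 := A 10 (by omega) (by omega)
    have e : 4 + 6 * i + 10 = 4 + 6 * (i + 1) + 4 := by omega
    rw [e] at h10
    exact h10.symm.trans (L'.p8.trans (con1_left_w hS hrow hi))
  · have V : ∀ r, 4 ≤ r → r < 10 → (S (5 + 4 * s.length + 2, 4 + 6 * i + r) ↔
        S (5 + 4 * s.length + 2, 4 + 6 * i + r + 1)) := by
      intro r h4 h10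
      rcases Nat.lt_or_ge r 6 with h6 | h6
      · refine hS.v _ _ ((vUse_right hi' h6).trans ?_) con1_okv_right
        have : vR i r 2 = 0 := by
          simp only [vR]
          rw [if_neg (by omega), if_pos h4]
        rw [this]; rfl
      · have e : 4 + 6 * i + r = 4 + 6 * (i + 1) + (r - 6) := by omega
        rw [e]
        refine hS.v _ _ ((vUse_right hi (by omega)).trans ?_) con1_okv_right
        have : vR (i + 1) (r - 6) 2 = 0 := by
          simp only [vR]
          rw [if_pos (by omega), if_pos (by omega)]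
        rw [this]; rfl
    have A : ∀ r, 4 ≤ r → r ≤ 10 →
        (S (5 + 4 * s.length + 2, 4 + 6 * i + r) ↔ Q S 0 0 i 1) := by
      intro r h4
      induction r, h4 using Nat.le_induction with
      | base =>
        intro _
        exact R.p8.trans (con1_right_w hS hrow hi')
      | succ r h4 ih =>
        intro h10
        exact (V r h4 (by omega)).symm.trans (ih (by omega))
    refine ⟨?_, fun h => absurd h (by omega), fun _ => A⟩
    have h10 := A 10 (by omega) (by omega)
    have e : 4 + 6 * i + 10 = 4 + 6 * (i + 1) + 4 := by omega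
    rw [e] at h10
    exact h10.symm.trans (R'.p8.trans (con1_right_w hS hrow hi))

theorem con1_rows_eq (hS : Con1Cl s M a ch S) (hrow : ∀ k i d, sg s k = some (i, d) → i < 2 * M + 1) :
    ∀ i, i < 2 * M + 1 → (Q S 0 0 i 1 ↔ Q S 0 0 0 1) := by
  intro i
  induction i with
  | zero => intro _; exact Iff.rfl
  | succ i ih =>
    intro hi
    exact (con1_row_next hS hrow hi).1.symm.trans (ih (by omega))

/-- the con1_closing column -/
theorem con1_closing (hS : Con1Cl s M a ch S) :
    ∀ y, 3 ≤ y → y ≤ 4 + 6 * (2 * M) + 4 → (S (1, y) ↔ S (1, 3)) := by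
  intro y h3
  induction y, h3 using Nat.le_induction with
  | base => intro _; exact Iff.rfl
  | succ y h3 ih =>
    intro hy
    refine Iff.trans (Iff.symm ?_) (ih (by omega))
    rcases Nat.lt_or_ge y 4 with h | h
    · have hy3 : y = 3 := by omega
      subst hy3
      exact hS.v 1 3 ((vUse_top (by omega)).trans rfl) (con1_okv_left (by omega))
    · have e : y = 4 + 6 * ((y - 4) / 6) + (y - 4) % 6 := by omega
      have hq : (y - 4) / 6 < 2 * M + 1 := by omega
      have hr : (y - 4) % 6 < 6 := by omega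
      rw [e]
      refine hS.v _ _ ((vUse_left (by omega) hq hr).trans ?_) (con1_okv_left (by omega))
      have : vL M ((y - 4) / 6) ((y - 4) % 6) 1 = 0 := by
        simp only [vL]
        rw [if_pos (by omega)]
      rw [this]; rfl

theorem con1_row0_T (hS : Con1Cl s M a ch S) (hrow : ∀ k i d, sg s k = some (i, d) → i < 2 * M + 1) :
    Q S 0 0 0 1 ↔ S (1, 3) := by
  have h1 := con1_rows_eq hS hrow (2 * M) (by omega)
  have h2 := con1_closing hS (4 + 6 * (2 * M) + 4) (by omega) (by omega)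
  have h3 : S (1, 4 + 6 * (2 * M) + 4) ↔ S (2, 4 + 6 * (2 * M) + 4) := by
    refine hS.h _ _ ((hUse_left (by omega) (by omega) (by omega)).trans ?_) (con1_okh_left (by omega))
    have : hL M (2 * M) 4 1 = 0 := by
      simp [hL]
    rw [this]; rfl
  have h4 := (con1_left_end hS (show 2 * M < 2 * M + 1 by omega)).p8.trans
    (con1_left_w hS hrow (by omega))
  exact h1.symm.trans (h4.symm.trans (h3.symm.trans h2))

theorem con1_rows_T (hS : Con1Cl s M a ch S) (hrow : ∀ k i d, sg s k = some (i, d) → i < 2 * M + 1)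
    {i k : ℕ} (hi : i < 2 * M + 1) (hk : k ≤ s.length) :
    (Q S k 0 i 1 ↔ S (1, 3)) ∧ (Q S k 0 i 3 ↔ S (1, 3)) ∧ (Q S k 0 i 5 ↔ S (1, 3)) := by
  obtain ⟨h1, h2, h3⟩ := con1_row_all hS hrow hi hk
  have h := (con1_rows_eq hS hrow i hi).trans (con1_row0_T hS hrow)
  exact ⟨h1.trans h, h2.trans h, h3.trans h⟩

theorem st_CON1 : ST_CON1 := by
  intro s M a ch hrow _ _ S hh hv x y hbad
  have hS : Con1Cl s M a ch S := ⟨hh, hv⟩
  unfold isBad at hbad
  rw [Bool.and_eq_true, Bool.and_eq_true, decide_eq_true_eq] at hbad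
  obtain ⟨⟨⟨h1, h2, h3, h4, h5⟩, h6⟩, h7⟩ := hbad
  obtain ⟨k, hkx⟩ : ∃ k, k = (x - 5) / 4 := ⟨_, rfl⟩
  obtain ⟨i, hiy⟩ : ∃ i, i = (y - 4) / 6 := ⟨_, rfl⟩
  rw [← hkx, ← hiy] at h5
  rw [← hkx] at h6
  rw [← hkx, ← hiy] at h7
  have hk : k < s.length := by
    by_contra hcon
    rw [con1_sg_ge (by omega)] at h5
    exact absurd h5 (by simp)
  have hi : i < 2 * M + 1 := hrow k i true h5
  have hb : bst s a i k = false := by
    cases h : bst s a i k
    · rfl
    · rw [h] at h7
      exact absurd h7 (by simp)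
  have hkd : kind (sg s k) i = .dblk := by
    rw [h5]
    simp [kind]
  have B := con1_block_false hS hk hi (Or.inr hkd) hb
  have r1 := (con1_rows_T hS hrow hi (show k ≤ s.length by omega)).1
  have r2 := (con1_rows_T hS hrow hi (show k + 1 ≤ s.length by omega)).1
  have b2 := B.b2
  rw [Q4] at b2
  have e1 : x = 5 + 4 * k + 1 := by omega
  have e2 : y = 4 + 6 * i + 1 := by omega
  have f1 : S (x, y) ↔ S (1, 3) := by
    rw [e1, e2]
    exact B.a1.trans r1
  have f2 : S (x + 1, y) ↔ S (1, 3) := by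
    rw [e1, e2]
    exact b2.trans r2
  exact f1.trans f2.symm

end Pool.Agent.Helper31.BC
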